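import Pool.Agent.H43.BZ.Stm

/-! BZ-HYD (for helper43): bounded mass, energy and entropy densities. -/

set_option autoImplicit false

open MeasureTheory Metric Set
open scoped RealInnerProductSpace ENNReal

namespace Pool.Agent.H350.BZ

open Pool.Agent.H43.BZ

theorem P_nonneg (d : ℕ) (y : E d) : 0 ≤ P d y := by
  unfold P
  positivity

theorem P_le_one (d : ℕ) (y : E d) : P d y ≤ 1 := by
  unfold P
  apply inv_le_one_of_one_le₀
  apply one_le_pow₀
  nlinarith [sq_nonneg ‖y‖]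

/-- the majorant -/
noncomputable def G (d : ℕ) (y : E d) : ℝ := (1 + ‖y‖ ^ 2) * P d y

theorem P_le_G (d : ℕ) (y : E d) : P d y ≤ G d y := by
  unfold G
  nlinarith [mul_nonneg (sq_nonneg ‖y‖) (P_nonneg d y)]

theorem sq_P_le_G (d : ℕ) (y : E d) : P d y * ‖y‖ ^ 2 ≤ G d y := by
  unfold G
  nlinarith [P_nonneg d y]

theorem G_nonneg (d : ℕ) (y : E d) : 0 ≤ G d y := le_trans (P_nonneg d y) (P_le_G d y)

theorem G_int (d : ℕ) : Integrable (G d) := by
  have hr : (Module.finrank ℝ (E d) : ℝ) < (8 * (d : ℝ) + 22) := by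
    have : Module.finrank ℝ (E d) = d := by simp [E]
    rw [this]
    have : (0 : ℝ) ≤ d := Nat.cast_nonneg d
    linarith
  have h := integrable_rpow_neg_one_add_norm_sq (μ := (volume : Measure (E d))) hr
  refine h.congr (Filter.Eventually.of_forall fun y => ?_)
  have h1 : (0 : ℝ) < 1 + ‖y‖ ^ 2 := by positivity
  show (1 + ‖y‖ ^ 2) ^ (-(8 * (d : ℝ) + 22) / 2) = (1 + ‖y‖ ^ 2) * P d y
  have e1 : (-(8 * (d : ℝ) + 22) / 2) = -(((4 * d + 11 : ℕ) : ℝ)) := by
    push_cast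
    ring
  rw [e1, Real.rpow_neg h1.le, Real.rpow_natCast]
  unfold P
  rw [show 4 * (d + 3) = (4 * d + 11) + 1 by ring, pow_succ (1 + ‖y‖ ^ 2) (4 * d + 11), mul_inv,
    mul_comm (((1 + ‖y‖ ^ 2) ^ (4 * d + 11))⁻¹) ((1 + ‖y‖ ^ 2)⁻¹), ← mul_assoc,
    mul_inv_cancel₀ h1.ne', one_mul]

theorem HYD (hf : S_FIN) (_hs : S_SUP) : S_HYD := by
  intro d hd s γ K hs0 hs1 hγ hγs hK b hb T f hT hsol hint
  obtain ⟨C, hC, hfin⟩ := hf d hd s γ K hs0 hs1 hγ hγs hK
  -- the initial bound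
  obtain ⟨N₀, hN₀⟩ := hsol.decay 0 ⟨le_rfl, hT⟩ (8 * (d + 3))
  set N : ℝ := max N₀ 0 with hN
  have hNn : 0 ≤ N := le_max_right _ _
  have hinit : ∀ x v, f 0 x v ≤ N * P d v := by
    intro x v
    have h1 := hN₀ 0 ⟨le_rfl, le_rfl⟩ x v
    have h0 : 0 ≤ f 0 x v := hsol.nonneg 0 ⟨le_rfl, hT⟩ x v
    have hpos : (0 : ℝ) < (1 + ‖v‖ ^ 2) ^ (4 * (d + 3)) := by positivity
    have hle : (1 + ‖v‖ ^ 2) ^ (4 * (d + 3)) ≤ (1 + ‖v‖) ^ (8 * (d + 3)) := by
      rw [show 8 * (d + 3) = 2 * (4 * (d + 3)) by ring, pow_mul (1 + ‖v‖) 2 (4 * (d + 3))]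
      apply pow_le_pow_left₀ (by positivity)
      nlinarith [norm_nonneg v]
    unfold P
    rw [← div_eq_mul_inv, le_div_iff₀ hpos]
    calc f 0 x v * (1 + ‖v‖ ^ 2) ^ (4 * (d + 3)) ≤ f 0 x v * (1 + ‖v‖) ^ (8 * (d + 3)) :=
          mul_le_mul_of_nonneg_left hle h0
      _ = (1 + ‖v‖) ^ (8 * (d + 3)) * f 0 x v := mul_comm _ _
      _ ≤ N₀ := h1
      _ ≤ N := le_max_left _ _
  have hbd := hfin b hb T f hT hsol N hinit
  set M : ℝ → ℝ := fun t => ⨆ y, ∫ w, f t y w * (1 + ‖w‖) ^ (γ + 2 * s) with hM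
  have hMn : ∀ t ∈ Ico 0 T, 0 ≤ M t := by
    intro t ht
    apply Real.iSup_nonneg
    intro y
    apply integral_nonneg
    intro w
    exact mul_nonneg (hsol.nonneg t ht y w) (Real.rpow_nonneg (by positivity) _)
  set I : ℝ := ∫ t in Ico 0 T, M t with hI
  have hIt : ∀ t ∈ Ico 0 T, ∫ τ in (0:ℝ)..t, M τ ≤ I := by
    intro t ht
    rw [intervalIntegral.integral_of_le ht.1]
    apply setIntegral_mono_set hint
    · exact (ae_restrict_mem measurableSet_Ico).mono fun t ht => hMn t ht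
    · exact Filter.Eventually.of_forall fun τ hτ => ⟨hτ.1.le, lt_of_le_of_lt hτ.2 ht.2⟩
  set N' : ℝ := N * Real.exp (C * I) with hN'
  have hN'n : 0 ≤ N' := by positivity
  have hbd' : ∀ t ∈ Ico 0 T, ∀ x v, f t x v ≤ N' * P d v := by
    intro t ht x v
    refine le_trans (hbd t ht x v) ?_
    apply mul_le_mul_of_nonneg_right _ (P_nonneg d v)
    apply mul_le_mul_of_nonneg_left _ hNn
    apply Real.exp_le_exp.mpr
    exact mul_le_mul_of_nonneg_left (hIt t ht) hC
  have hJ : 0 ≤ ∫ v, G d v := integral_nonneg fun v => G_nonneg d v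
  refine ⟨N' * (∫ v, G d v) + (N' * |Real.log N'|) * ∫ v, G d v, ?_⟩
  intro t ht x
  have hA : 0 ≤ N' * ∫ v, G d v := mul_nonneg hN'n hJ
  have hB : 0 ≤ (N' * |Real.log N'|) * ∫ v, G d v :=
    mul_nonneg (mul_nonneg hN'n (abs_nonneg _)) hJ
  have hfn : ∀ v, 0 ≤ f t x v := fun v => hsol.nonneg t ht x v
  have hfG : ∀ v, f t x v ≤ N' * G d v := fun v =>
    le_trans (hbd' t ht x v) (mul_le_mul_of_nonneg_left (P_le_G d v) hN'n)
  refine ⟨?_, ?_, ?_⟩
  · have h1 : ∫ v, f t x v ≤ ∫ v, N' * G d v :=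
      integral_mono_of_nonneg (Filter.Eventually.of_forall hfn) ((G_int d).const_mul N')
        (Filter.Eventually.of_forall hfG)
    rw [integral_const_mul] at h1
    linarith
  · have h1 : ∫ v, f t x v * ‖v‖ ^ 2 ≤ ∫ v, N' * G d v := by
      refine integral_mono_of_nonneg (Filter.Eventually.of_forall fun v => ?_)
        ((G_int d).const_mul N') (Filter.Eventually.of_forall fun v => ?_)
      · exact mul_nonneg (hfn v) (sq_nonneg _)
      · calc f t x v * ‖v‖ ^ 2 ≤ (N' * P d v) * ‖v‖ ^ 2 :=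
              mul_le_mul_of_nonneg_right (hbd' t ht x v) (sq_nonneg _)
          _ = N' * (P d v * ‖v‖ ^ 2) := by ring
          _ ≤ N' * G d v := mul_le_mul_of_nonneg_left (sq_P_le_G d v) hN'n
    rw [integral_const_mul] at h1
    linarith
  · have hpt : ∀ v, f t x v * Real.log (f t x v) ≤ (N' * |Real.log N'|) * G d v := by
      intro v
      rcases (hfn v).eq_or_lt with h0 | h0
      · rw [← h0, zero_mul]
        exact mul_nonneg (mul_nonneg hN'n (abs_nonneg _)) (G_nonneg d v)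
      · have hle : f t x v ≤ N' := by
          refine le_trans (hbd' t ht x v) ?_
          calc N' * P d v ≤ N' * 1 := mul_le_mul_of_nonneg_left (P_le_one d v) hN'n
            _ = N' := mul_one _
        have hlog : Real.log (f t x v) ≤ |Real.log N'| :=
          le_trans (Real.log_le_log h0 hle) (le_abs_self _)
        calc f t x v * Real.log (f t x v) ≤ f t x v * |Real.log N'| :=
              mul_le_mul_of_nonneg_left hlog h0.le
          _ ≤ (N' * G d v) * |Real.log N'| :=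
              mul_le_mul_of_nonneg_right (hfG v) (abs_nonneg _)
          _ = (N' * |Real.log N'|) * G d v := by ring
    have h1 : ∫ v, f t x v * Real.log (f t x v) ≤ (N' * |Real.log N'|) * ∫ v, G d v := by
      by_cases hi : Integrable (fun v => f t x v * Real.log (f t x v))
      · have h2 : ∫ v, f t x v * Real.log (f t x v) ≤ ∫ v, (N' * |Real.log N'|) * G d v :=
          integral_mono hi ((G_int d).const_mul _) hpt
        rw [integral_const_mul] at h2
        exact h2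
      · rw [integral_undef hi]
        exact hB
    linarith

end Pool.Agent.H350.BZ
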