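import Pool.Agent.H43.BZ.Stm4

/-! BZ4-LMAST (for helper43): the criterion with a moving velocity scale for the Landau equation. -/

set_option autoImplicit false

open MeasureTheory Metric Set Filter Topology
open scoped RealInnerProductSpace ENNReal

namespace Pool.Agent.H350.BZ4

open Pool.Agent.H43.BZ

theorem P_nonneg (d : ℕ) (y : E d) : 0 ≤ P d y := by
  unfold P
  positivity

theorem shiftL {d : ℕ} {γ : ℝ} {T : ℝ} {f : ℝ → E d → E d → ℝ} (h : SolL d γ T f)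
    {t₀ : ℝ} (h0 : t₀ ∈ Ico 0 T) : SolL d γ (T - t₀) (fun t => f (t₀ + t)) := by
  obtain ⟨h0, h1⟩ := h0
  refine ⟨?_, ?_, ?_, ?_, ?_, ?_, ?_⟩
  · intro t ht
    exact h.nonneg _ ⟨by linarith [ht.1], by linarith [ht.2]⟩
  · have hc : Continuous fun p : ℝ × E d × E d => ((t₀ + p.1, p.2) : ℝ × E d × E d) := by
      fun_prop
    refine h.cont.comp hc.continuousOn ?_
    intro p hp
    exact ⟨⟨by linarith [hp.1.1], by linarith [hp.1.2]⟩, mem_univ _⟩
  · intro t ht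
    exact h.periodic _ ⟨by linarith [ht.1], by linarith [ht.2]⟩
  · intro T' hT' q
    obtain ⟨C, hC⟩ := h.decay (t₀ + T') ⟨by linarith [hT'.1], by linarith [hT'.2]⟩ q
    exact ⟨C, fun t ht => hC _ ⟨by linarith [ht.1], by linarith [ht.2]⟩⟩
  · intro t ht x v
    have hd := h.diff (t₀ + t) ⟨by linarith [ht.1], by linarith [ht.2]⟩ x v
    have hc : DifferentiableAt ℝ (fun p : ℝ × E d => ((t₀ + p.1, p.2) : ℝ × E d)) (t, x) := by
      fun_prop
    exact DifferentiableAt.comp (g := fun p : ℝ × E d => f p.1 p.2 v) (t, x) hd hc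
  · intro t ht x
    exact h.smooth (t₀ + t) ⟨by linarith [ht.1], by linarith [ht.2]⟩ x
  · intro t ht x v
    have he := h.eqn (t₀ + t) ⟨by linarith [ht.1], by linarith [ht.2]⟩ x v
    have hs := fderiv_comp_add_left (𝕜 := ℝ) (f := fun p : ℝ × E d => f p.1 p.2 v)
      (x := ((t, x) : ℝ × E d)) ((t₀, 0) : ℝ × E d)
    simp only [Prod.fst_add, Prod.snd_add, zero_add, Prod.mk_add_mk] at hs
    rw [← he, ← hs]

theorem P_mono (d : ℕ) (v : E d) (R R' : ℝ) (hR : 0 < R) (h : R ≤ R') :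
    P d (R⁻¹ • v) ≤ P d (R'⁻¹ • v) := by
  have hR' : 0 < R' := lt_of_lt_of_le hR h
  unfold P
  apply inv_anti₀ (by positivity)
  apply pow_le_pow_left₀ (by positivity)
  rw [norm_smul, norm_smul, Real.norm_of_nonneg (inv_nonneg.mpr hR.le),
    Real.norm_of_nonneg (inv_nonneg.mpr hR'.le)]
  have h1 : R'⁻¹ ≤ R⁻¹ := inv_anti₀ hR h
  have h2 : R'⁻¹ * ‖v‖ ≤ R⁻¹ * ‖v‖ := mul_le_mul_of_nonneg_right h1 (norm_nonneg v)
  have h3 : 0 ≤ R'⁻¹ * ‖v‖ := by positivity
  have h4 := pow_le_pow_left₀ h3 h2 2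
  linarith

theorem kkR_nonneg {d : ℕ} (γ s R : ℝ) (hR : 0 < R) (v w : E d) : 0 ≤ kkR γ s R v w := by
  unfold kkR
  have h1 : 0 ≤ 1 + ‖w‖ / R := by positivity
  positivity

theorem kkR_meas {d : ℕ} (γ s R : ℝ) (v : E d) : Measurable (fun w : E d => kkR γ s R v w) := by
  unfold kkR
  have h1 : Measurable (fun w : E d => ‖v - w‖) := (measurable_const.sub measurable_id).norm
  have h2 : Measurable (fun w : E d => ‖w‖) := measurable_norm
  exact ((h1.pow_const γ).mul ((measurable_const.add (h2.div_const R)).pow_const (2 * s))).div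
    (measurable_const.add ((h1.div (measurable_const.add h2)).pow_const 2))

theorem sup_facts (hk : S_KKRLE) (hi : S_KKI1) (hs : S_SUPn) {d : ℕ} (hd : 2 ≤ d) {γ : ℝ}
    (hγ1 : -2 < γ) (hγ2 : γ < 0) {T : ℝ} (hT : 0 < T) {f : ℝ → E d → E d → ℝ}
    (h : SolL d γ T f) {R : ℝ} (hR : 0 < R) :
    (∀ t ∈ Ico 0 T, BddAbove (range fun q : E d × E d => ∫ w, f t q.1 w * kkR γ 1 R q.2 w)) ∧
    (∀ t ∈ Ico 0 T, ∀ x v, Integrable fun w => f t x w * kkR γ 1 R v w) := by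
  obtain ⟨c, hc0, hc⟩ := (hk d hd γ 1 one_pos).2 R hR
  obtain ⟨C, hC⟩ := hi d hd γ hγ1 hγ2
  have hint : ∀ v : E d, Integrable (fun w : E d => kkR γ 1 R v w * ((1 + ‖w‖) ^ (d + 7))⁻¹) := by
    intro v
    refine Integrable.mono' ((hC v).1.const_mul c) ?_ ?_
    · apply Measurable.aestronglyMeasurable
      exact (kkR_meas γ 1 R v).mul ((measurable_const.add measurable_norm).pow_const _).inv
    · refine Eventually.of_forall fun w => ?_
      have h1 : 0 ≤ ((1 + ‖w‖) ^ (d + 7))⁻¹ := by positivity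
      rw [Real.norm_of_nonneg (mul_nonneg (kkR_nonneg γ 1 R hR v w) h1), ← mul_assoc]
      exact mul_le_mul_of_nonneg_right (hc v w) h1
  have hle : ∀ v : E d, ∫ w, kkR γ 1 R v w * ((1 + ‖w‖) ^ (d + 7))⁻¹ ≤ c * C := by
    intro v
    calc ∫ w, kkR γ 1 R v w * ((1 + ‖w‖) ^ (d + 7))⁻¹ ≤
          ∫ w, c * (kk γ 1 v w * ((1 + ‖w‖) ^ (d + 7))⁻¹) := by
          refine integral_mono (hint v) ((hC v).1.const_mul c) fun w => ?_
          have h1 : 0 ≤ ((1 + ‖w‖) ^ (d + 7))⁻¹ := by positivity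
          show kkR γ 1 R v w * ((1 + ‖w‖) ^ (d + 7))⁻¹ ≤ c * (kk γ 1 v w * ((1 + ‖w‖) ^ (d + 7))⁻¹)
          rw [← mul_assoc]
          exact mul_le_mul_of_nonneg_right (hc v w) h1
      _ = c * ∫ w, kk γ 1 v w * ((1 + ‖w‖) ^ (d + 7))⁻¹ := integral_const_mul _ _
      _ ≤ c * C := mul_le_mul_of_nonneg_left (hC v).2.1 hc0
  have := hs d T f (fun v w => kkR γ 1 R v w) (d + 7) (c * C) hT
    (fun v w => kkR_nonneg γ 1 R hR v w) hint hle h.nonneg h.cont h.periodic h.decay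
  exact ⟨this.2.1, this.2.2⟩

theorem lam_comp (hk : S_KKRLE) (hi : S_KKI1) (hs : S_SUPn) {d : ℕ} (hd : 2 ≤ d) {γ : ℝ}
    (hγ1 : -2 < γ) (hγ2 : γ < 0) {T : ℝ} (hT : 0 < T) {f : ℝ → E d → E d → ℝ}
    (h : SolL d γ T f) {R R' : ℝ} (hR : 0 < R) (hRR : R ≤ R') {t : ℝ} (ht : t ∈ Ico 0 T) :
    LamR γ 1 R f t ≤ (R' / R) ^ (2 * (1 : ℝ)) * LamR γ 1 R' f t := by
  have hR' : 0 < R' := lt_of_lt_of_le hR hRR
  obtain ⟨-, i1⟩ := sup_facts hk hi hs hd hγ1 hγ2 hT h hR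
  obtain ⟨b2, i2⟩ := sup_facts hk hi hs hd hγ1 hγ2 hT h hR'
  have hpos : 0 ≤ (R' / R) ^ (2 * (1 : ℝ)) := by positivity
  unfold LamR
  apply ciSup_le
  rintro ⟨x, v⟩
  show ∫ w, f t x w * kkR γ 1 R v w ≤ _
  calc ∫ w, f t x w * kkR γ 1 R v w ≤
        ∫ w, (R' / R) ^ (2 * (1 : ℝ)) * (f t x w * kkR γ 1 R' v w) := by
        refine integral_mono (i1 t ht x v) ((i2 t ht x v).const_mul _) fun w => ?_
        have h1 := (hk d hd γ 1 one_pos).1 R R' hR hRR v w
        have h2 := mul_le_mul_of_nonneg_left h1 (h.nonneg t ht x w)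
        calc f t x w * kkR γ 1 R v w ≤
              f t x w * ((R' / R) ^ (2 * (1 : ℝ)) * kkR γ 1 R' v w) := h2
          _ = (R' / R) ^ (2 * (1 : ℝ)) * (f t x w * kkR γ 1 R' v w) := by ring
    _ = (R' / R) ^ (2 * (1 : ℝ)) * ∫ w, f t x w * kkR γ 1 R' v w := integral_const_mul _ _
    _ ≤ _ := by
        apply mul_le_mul_of_nonneg_left _ hpos
        exact le_ciSup (f := fun q : E d × E d => ∫ w, f t q.1 w * kkR γ 1 R' q.2 w)
          (b2 t ht) (x, v)

/-- the initial bound -/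
theorem init_bound {d : ℕ} {γ : ℝ} {T : ℝ} {f : ℝ → E d → E d → ℝ} (h : SolL d γ T f)
    (hT : 0 < T) {R : ℝ} (hR : 0 < R) : ∃ N : ℝ, 0 ≤ N ∧ ∀ x v, f 0 x v ≤ N * P d (R⁻¹ • v) := by
  obtain ⟨C, hC⟩ := h.decay 0 ⟨le_rfl, hT⟩ (2 * (4 * (d + 3)))
  set M : ℝ := max 1 R⁻¹ with hM
  have hM1 : 1 ≤ M := le_max_left _ _
  have hM0 : 0 ≤ M := by linarith
  refine ⟨(M ^ 2) ^ (4 * (d + 3)) * max C 0, by positivity, fun x v => ?_⟩
  have h0 : 0 ≤ f 0 x v := h.nonneg 0 ⟨le_rfl, hT⟩ x v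
  have h1 := hC 0 ⟨le_rfl, le_rfl⟩ x v
  have hpos : (0 : ℝ) < (1 + ‖R⁻¹ • v‖ ^ 2) ^ (4 * (d + 3)) := by positivity
  have hle : (1 + ‖R⁻¹ • v‖ ^ 2) ^ (4 * (d + 3)) ≤
      (M ^ 2) ^ (4 * (d + 3)) * (1 + ‖v‖) ^ (2 * (4 * (d + 3))) := by
    rw [pow_mul (1 + ‖v‖) 2 (4 * (d + 3)), ← mul_pow]
    apply pow_le_pow_left₀ (by positivity)
    rw [norm_smul, Real.norm_of_nonneg (inv_nonneg.mpr hR.le), mul_pow]
    have h2 : (R⁻¹) ^ 2 ≤ M ^ 2 := pow_le_pow_left₀ (inv_nonneg.mpr hR.le) (le_max_right _ _) 2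
    have h3 : (1 : ℝ) ≤ M ^ 2 := one_le_pow₀ hM1
    have h4 : (R⁻¹) ^ 2 * ‖v‖ ^ 2 ≤ M ^ 2 * ‖v‖ ^ 2 := mul_le_mul_of_nonneg_right h2 (sq_nonneg _)
    have h5 : 0 ≤ M ^ 2 * ‖v‖ := by positivity
    nlinarith
  unfold P
  rw [← div_eq_mul_inv, le_div_iff₀ hpos]
  calc f 0 x v * (1 + ‖R⁻¹ • v‖ ^ 2) ^ (4 * (d + 3)) ≤
        f 0 x v * ((M ^ 2) ^ (4 * (d + 3)) * (1 + ‖v‖) ^ (2 * (4 * (d + 3)))) :=
        mul_le_mul_of_nonneg_left hle h0
    _ = (M ^ 2) ^ (4 * (d + 3)) * ((1 + ‖v‖) ^ (2 * (4 * (d + 3))) * f 0 x v) := by ring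
    _ ≤ (M ^ 2) ^ (4 * (d + 3)) * max C 0 := by
        apply mul_le_mul_of_nonneg_left _ (by positivity)
        exact h1.trans (le_max_left _ _)

theorem LMAST (hf : S_LSFIN) (hr : S_LSRATE) (hk : S_KKRLE) (hi : S_KKI1) (hs : S_SUPn) :
    S_LMAST := by
  intro d hd γ hγ1 hγ2 T f hT hsol x hx0 hx m hm hlam
  obtain ⟨C, hC0, hfin⟩ := hf d hd
  obtain ⟨c, hc0, hrate⟩ := hr d hd γ hγ1 hγ2
  -- the dyadic times
  set u : ℕ → ℝ := fun i => T / 2 ^ i with hu
  have hu0 : ∀ i, 0 < u i := fun i => by positivity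
  have huT : ∀ i, u i ≤ T := fun i => div_le_self hT.le (one_le_pow₀ (by norm_num))
  have hus : ∀ i, u (i + 1) = u i / 2 := fun i => by
    simp only [hu]
    rw [pow_succ]
    field_simp
  set t : ℕ → ℝ := fun i => T - u i with ht
  have ht0 : ∀ i, t i ∈ Ico 0 T := fun i => ⟨by
    have := huT i
    simp only [ht]
    linarith, by
    have := hu0 i
    simp only [ht]
    linarith⟩
  have hts : ∀ i, t i ≤ t (i + 1) := fun i => by
    simp only [ht]
    rw [hus i]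
    have := hu0 i
    linarith
  set R : ℕ → ℝ := fun i => (u i) ^ (-x) with hRdef
  have hR0 : ∀ i, 0 < R i := fun i => Real.rpow_pos_of_pos (hu0 i) _
  have hRs : ∀ i, R i ≤ R (i + 1) := fun i => by
    simp only [hRdef]
    apply Real.rpow_le_rpow_of_nonpos (hu0 (i + 1)) _ (by linarith)
    rw [hus i]
    have := hu0 i
    linarith
  set K : ℝ := ((2 : ℝ) ^ x) ^ (2 * (1 : ℝ)) with hK
  have hK0 : 0 ≤ K := by positivity
  -- comparison
  have hcomp : ∀ i, ∀ τ ∈ Icc (t i) (t (i + 1)), LamR γ 1 (R i) f τ ≤ K * m τ := by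
    intro i τ hτ
    have hτT : τ ∈ Ico 0 T := ⟨(ht0 i).1.trans hτ.1, lt_of_le_of_lt hτ.2 (ht0 (i + 1)).2⟩
    have h1 : T - τ ≤ u i := by
      have := hτ.1
      simp only [ht] at this
      linarith
    have h2 : u i / 2 ≤ T - τ := by
      have := hτ.2
      simp only [ht] at this
      rw [hus i] at this
      linarith
    have hpos : 0 < T - τ := by have := hτT.2; linarith
    have h3 : R i ≤ (T - τ) ^ (-x) := by
      simp only [hRdef]
      exact Real.rpow_le_rpow_of_nonpos hpos h1 (by linarith)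
    have h4 := lam_comp hk hi hs hd hγ1 hγ2 hT hsol (hR0 i) h3 hτT
    have h5 : (T - τ) ^ (-x) / R i ≤ (2 : ℝ) ^ x := by
      simp only [hRdef]
      rw [← Real.div_rpow hpos.le (hu0 i).le]
      have h6 : (1 / 2 : ℝ) ≤ (T - τ) / u i := by
        rw [le_div_iff₀ (hu0 i)]
        linarith
      calc ((T - τ) / u i) ^ (-x) ≤ (1 / 2 : ℝ) ^ (-x) :=
            Real.rpow_le_rpow_of_nonpos (by norm_num) h6 (by linarith)
        _ = (2 : ℝ) ^ x := by
            rw [one_div, Real.inv_rpow (by norm_num), Real.rpow_neg (by norm_num), inv_inv]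
    have h7 : ((T - τ) ^ (-x) / R i) ^ (2 * (1 : ℝ)) ≤ K := by
      rw [hK]
      apply Real.rpow_le_rpow _ h5 (by norm_num)
      exact div_nonneg (Real.rpow_nonneg hpos.le _) (hR0 i).le
    have h8 : 0 ≤ LamR γ 1 ((T - τ) ^ (-x)) f τ :=
      (hfin γ hγ1 hγ2 T f hT hsol _ (Real.rpow_pos_of_pos hpos _)).2.1 τ hτT
    calc LamR γ 1 (R i) f τ ≤
          ((T - τ) ^ (-x) / R i) ^ (2 * (1 : ℝ)) * LamR γ 1 ((T - τ) ^ (-x)) f τ := h4
      _ ≤ K * LamR γ 1 ((T - τ) ^ (-x)) f τ := mul_le_mul_of_nonneg_right h7 h8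
      _ ≤ K * m τ := mul_le_mul_of_nonneg_left (hlam τ hτT) hK0
  have hm0 : ∀ τ ∈ Ico 0 T, 0 ≤ m τ := fun τ hτ => by
    have hpos : 0 < T - τ := by have := hτ.2; linarith
    exact ((hfin γ hγ1 hγ2 T f hT hsol _ (Real.rpow_pos_of_pos hpos (-x))).2.1 τ hτ).trans
      (hlam τ hτ)
  -- interval integrability of m
  have hmI : ∀ a b : ℝ, a ∈ Ico 0 T → b ∈ Ico 0 T → IntervalIntegrable m volume a b := by
    intro a b ha hb
    rw [intervalIntegrable_iff]
    apply hm.mono_set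
    intro τ hτ
    rw [uIoc, mem_Ioc] at hτ
    exact ⟨(le_min ha.1 hb.1).trans hτ.1.le, lt_of_le_of_lt hτ.2 (max_lt ha.2 hb.2)⟩
  obtain ⟨N₀, hN₀, hinit⟩ := init_bound hsol hT (hR0 0)
  have ht00 : t 0 = 0 := by
    simp only [ht, hu, pow_zero, div_one, sub_self]
  have hind : ∀ i, ∀ y v, f (t i) y v ≤
      N₀ * Real.exp (C * (K * ∫ τ in (0:ℝ)..t i, m τ)) * P d ((R i)⁻¹ • v) := by
    intro i
    induction i with
    | zero =>
      intro y v
      rw [ht00, intervalIntegral.integral_same, mul_zero, mul_zero, Real.exp_zero, mul_one]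
      exact hinit y v
    | succ i ih =>
      intro y v
      have hS : SolL d γ (T - t i) (fun τ => f (t i + τ)) := shiftL hsol (ht0 i)
      have hTi : 0 < T - t i := by have := (ht0 i).2; linarith
      have h1 := (hfin γ hγ1 hγ2 (T - t i) _ hTi hS (R i) (hR0 i)).2.2
        (N₀ * Real.exp (C * (K * ∫ τ in (0:ℝ)..t i, m τ))) (fun y v => by
          show f (t i + 0) y v ≤ _
          rw [add_zero]
          exact ih y v) (t (i + 1) - t i)
        ⟨by have := hts i; linarith, by have := (ht0 (i + 1)).2; linarith⟩ y v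
      have e1 : f (t i + (t (i + 1) - t i)) y v = f (t (i + 1)) y v := by
        rw [add_sub_cancel]
      have e2 : ∫ τ in (0:ℝ)..(t (i + 1) - t i), LamR γ 1 (R i) (fun τ => f (t i + τ)) τ =
          ∫ τ in (t i)..(t (i + 1)), LamR γ 1 (R i) f τ := by
        have h2 := intervalIntegral.integral_comp_add_left (a := (0 : ℝ))
          (b := t (i + 1) - t i) (fun τ => LamR γ 1 (R i) f τ) (t i)
        rw [add_zero, add_sub_cancel] at h2
        exact h2
      have hcont := (hfin γ hγ1 hγ2 T f hT hsol (R i) (hR0 i)).1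
      have hsub : Icc (t i) (t (i + 1)) ⊆ Ico 0 T := fun τ hτ =>
        ⟨(ht0 i).1.trans hτ.1, lt_of_le_of_lt hτ.2 (ht0 (i + 1)).2⟩
      have h3 : ∫ τ in (t i)..(t (i + 1)), LamR γ 1 (R i) f τ ≤
          K * ∫ τ in (t i)..(t (i + 1)), m τ := by
        rw [← intervalIntegral.integral_const_mul]
        refine intervalIntegral.integral_mono_on (hts i) ?_ ?_ (hcomp i)
        · apply ContinuousOn.intervalIntegrable
          rw [uIcc_of_le (hts i)]
          exact hcont.mono hsub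
        · exact (hmI _ _ (ht0 i) (ht0 (i + 1))).const_mul K
      have h4 : (∫ τ in (0:ℝ)..t i, m τ) + ∫ τ in (t i)..(t (i + 1)), m τ =
          ∫ τ in (0:ℝ)..t (i + 1), m τ :=
        intervalIntegral.integral_add_adjacent_intervals
          (hmI _ _ ⟨le_rfl, hT⟩ (ht0 i)) (hmI _ _ (ht0 i) (ht0 (i + 1)))
      have h5 : f (t (i + 1)) y v ≤ N₀ * Real.exp (C * (K * ∫ τ in (0:ℝ)..t i, m τ)) *
          Real.exp (C * ∫ τ in (t i)..(t (i + 1)), LamR γ 1 (R i) f τ) *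
            P d ((R i)⁻¹ • v) := by
        rw [← e1, ← e2]
        exact h1
      refine h5.trans ?_
      have hA : 0 ≤ N₀ * Real.exp (C * (K * ∫ τ in (0:ℝ)..t i, m τ)) := by positivity
      calc N₀ * Real.exp (C * (K * ∫ τ in (0:ℝ)..t i, m τ)) *
            Real.exp (C * ∫ τ in (t i)..(t (i + 1)), LamR γ 1 (R i) f τ) *
              P d ((R i)⁻¹ • v) ≤
          N₀ * Real.exp (C * (K * ∫ τ in (0:ℝ)..t i, m τ)) *
            Real.exp (C * (K * ∫ τ in (t i)..(t (i + 1)), m τ)) *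
              P d ((R (i + 1))⁻¹ • v) := by
            apply mul_le_mul _ (P_mono d v _ _ (hR0 i) (hRs i)) (P_nonneg d _) (by positivity)
            apply mul_le_mul_of_nonneg_left _ hA
            apply Real.exp_le_exp.mpr
            exact mul_le_mul_of_nonneg_left h3 hC0
        _ = N₀ * Real.exp (C * (K * ∫ τ in (0:ℝ)..t (i + 1), m τ)) *
              P d ((R (i + 1))⁻¹ • v) := by
            rw [mul_assoc N₀, ← Real.exp_add, ← h4]
            congr 3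
            ring
  -- the uniform constant
  set I : ℝ := ∫ τ in Ico 0 T, m τ with hI
  set B : ℝ := N₀ * Real.exp (C * (K * I)) with hB
  have hB0 : 0 ≤ B := by positivity
  have hunif : ∀ i, ∀ y v, f (t i) y v ≤ B * P d ((R i)⁻¹ • v) := by
    intro i y v
    refine (hind i y v).trans ?_
    apply mul_le_mul_of_nonneg_right _ (P_nonneg d _)
    apply mul_le_mul_of_nonneg_left _ hN₀
    apply Real.exp_le_exp.mpr
    apply mul_le_mul_of_nonneg_left _ hC0
    apply mul_le_mul_of_nonneg_left _ hK0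
    rw [intervalIntegral.integral_of_le (ht0 i).1]
    apply setIntegral_mono_set hm
    · exact (ae_restrict_mem measurableSet_Ico).mono fun τ hτ => hm0 τ hτ
    · exact Eventually.of_forall fun τ hτ => ⟨hτ.1.le, lt_of_le_of_lt hτ.2 (ht0 i).2⟩
  -- choice of i
  have hexp : 0 < 1 - ((d : ℝ) + γ) * x := by linarith
  have hval : ∀ i, B * (R i) ^ ((d : ℝ) + γ) * (T - t i) =
      B * (u i) ^ (1 - ((d : ℝ) + γ) * x) := by
    intro i
    have e1 : T - t i = u i := by simp only [ht]; ring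
    rw [e1]
    simp only [hRdef]
    rw [← Real.rpow_mul (hu0 i).le, mul_assoc]
    congr 1
    nth_rewrite 2 [← Real.rpow_one (u i)]
    rw [← Real.rpow_add (hu0 i)]
    congr 1
    ring
  have hlimu : Tendsto u atTop (𝓝 0) := by
    have h1 : Tendsto (fun i : ℕ => T * (1 / 2 : ℝ) ^ i) atTop (𝓝 (T * 0)) :=
      (tendsto_pow_atTop_nhds_zero_of_lt_one (by norm_num) (by norm_num)).const_mul T
    rw [mul_zero] at h1
    refine h1.congr fun i => ?_
    simp only [hu]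
    rw [one_div, inv_pow, div_eq_mul_inv]
  have hlim : Tendsto (fun i => B * (u i) ^ (1 - ((d : ℝ) + γ) * x)) atTop (𝓝 0) := by
    have h1 := (hlimu.rpow_const (p := 1 - ((d : ℝ) + γ) * x) (Or.inr hexp.le)).const_mul B
    rw [Real.zero_rpow hexp.ne', mul_zero] at h1
    exact h1
  obtain ⟨i, hi'⟩ := (hlim.eventually (gt_mem_nhds hc0)).exists
  obtain ⟨-, B', hB'⟩ := hrate T f hT hsol (t i) (ht0 i) B (R i) (hR0 i) (hunif i)
    (by rw [hval i]; exact hi'.le)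
  exact ⟨B', hB'⟩

end Pool.Agent.H350.BZ4
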